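import Mathlib
import Pool.Agent.H.MP_b21e06_an.E

namespace Pool.Agent.Results.MP_b21e06_an.Yes

open Set Filter Topology MeasureTheory
open scoped ENNReal

noncomputable def pt (lam : ℤ → ℝ) (S : ℝ × ℝ × ℤ) : ℝ :=
  lam S.2.2 * S.1 + (1 - lam S.2.2) * S.2.1

noncomputable def node (lam : ℤ → ℝ) : List Bool → ℝ × ℝ × ℤ
  | [] => (0, 1, 0)
  | ans :: w =>
    if ans then (pt lam (node lam w), (node lam w).2.1, (node lam w).2.2 + 1)
    else ((node lam w).1, pt lam (node lam w), (node lam w).2.2 - 1)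

noncomputable def alpern (lam : ℤ → ℝ) (w : List Bool) : ℝ := pt lam (node lam w)

noncomputable def hist (s : List Bool → ℝ) (τ : List ℝ → ℝ) : ℕ → List Bool × List ℝ
  | 0 => ([], [])
  | n + 1 => (decide (s (hist s τ n).1 < τ (hist s τ n).2) :: (hist s τ n).1,
      s (hist s τ n).1 :: (hist s τ n).2)

noncomputable def guess (s : List Bool → ℝ) (τ : List ℝ → ℝ) (n : ℕ) : ℝ := s (hist s τ n).1

noncomputable def pos (s : List Bool → ℝ) (τ : List ℝ → ℝ) (n : ℕ) : ℝ := τ (hist s τ n).2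

def IsAlpern (lam : ℤ → ℝ) (v : ℝ) : Prop :=
  (∀ k, lam k ∈ Ioo (0 : ℝ) 1) ∧ ∀ h ∈ Icc (0 : ℝ) 1, (∀ w, alpern lam w ≠ h) →
    HasSum (fun n => |guess (alpern lam) (fun _ => h) n - h|) v

def Legal (τ : List ℝ → ℝ) : Prop :=
  (∀ n : ℕ, Measurable fun x : Fin n → ℝ => τ (List.ofFn x)) ∧
  ∀ (s : List Bool → ℝ) (n : ℕ), pos s τ n ∈ Icc (0 : ℝ) 1 ∧
    ∀ i < n, (guess s τ i < pos s τ i → guess s τ i < pos s τ n) ∧
      (pos s τ i < guess s τ i → pos s τ n < guess s τ i)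

open Classical in
noncomputable def payoff (s : List Bool → ℝ) (τ : List ℝ → ℝ) : ℝ≥0∞ :=
  if ∃ n, guess s τ n = pos s τ n then 0
  else ⨅ x : ℝ, ⨅ _ : Tendsto (pos s τ) atTop (𝓝 x), ∑' n, ENNReal.ofReal |guess s τ n - x|

theorem node_eq (lam : ℤ → ℝ) (w : List Bool) :
    node lam w = Pool.Agent.H.MP_b21e06_an.node lam w := by
  induction w with
  | nil => rfl
  | cons a w ih => simp only [node, Pool.Agent.H.MP_b21e06_an.node, ih]; rfl

theorem hist_eq (s : List Bool → ℝ) (τ : List ℝ → ℝ) (n : ℕ) :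
    hist s τ n = Pool.Agent.H.MP_b21e06_an.hist s τ n := by
  induction n with
  | zero => rfl
  | succ n ih => simp only [hist, Pool.Agent.H.MP_b21e06_an.hist, ih]

theorem result :
    (∃ (lam : ℤ → ℝ) (v : ℝ), IsAlpern lam v) ∧
    ∀ (lam : ℤ → ℝ) (v : ℝ), IsAlpern lam v →
      ∀ (σ : Measure (List Bool → ℝ)) [IsProbabilityMeasure σ],
        ENNReal.ofReal v ≤ ⨆ τ : List ℝ → ℝ, ⨆ _ : Legal τ, ∫⁻ s, payoff s τ ∂σ := by
  have e1 : alpern = Pool.Agent.H.MP_b21e06_an.alpern := by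
    funext lam w
    simp only [alpern, Pool.Agent.H.MP_b21e06_an.alpern, node_eq]
    rfl
  have e2 : guess = Pool.Agent.H.MP_b21e06_an.guess := by
    funext s τ n
    simp only [guess, Pool.Agent.H.MP_b21e06_an.guess, hist_eq]
  have e3 : pos = Pool.Agent.H.MP_b21e06_an.pos := by
    funext s τ n
    simp only [pos, Pool.Agent.H.MP_b21e06_an.pos, hist_eq]
  have e4 : Legal = Pool.Agent.H.MP_b21e06_an.Legal := by
    funext τ
    simp only [Legal, Pool.Agent.H.MP_b21e06_an.Legal, e2, e3]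
  have e5 : payoff = Pool.Agent.H.MP_b21e06_an.payoff := by
    funext s τ
    unfold payoff Pool.Agent.H.MP_b21e06_an.payoff
    rw [e2, e3]
  unfold IsAlpern
  rw [e1, e2, e4, e5]
  exact ⟨Pool.Agent.H.MP_b21e06_an.exA,
    fun lam v h σ _ => Pool.Agent.H.MP_b21e06_an.main lam v h.1 h.2 σ⟩

end Pool.Agent.Results.MP_b21e06_an.Yes
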